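import Pool.Agent.helper51.VR.Spec

/-!
# Row vr:ENL (MP_24e2e7_nt): enlarging `V` by the primes of `D`
-/

set_option autoImplicit false

namespace Pool.Agent.VR

open Pool.Agent.RB NumberField IsDedekindDomain Module
open scoped nonZeroDivisors Real Classical IsMulCommutative

theorem ENL (hADD : ADD_stmt) (hFCT : FCT_stmt) : ENL_stmt := by
  intro F H _ _ _ _ _ _ _ r₀ r D₀ D hS hT hG Θ hΘ hR
  have key : ∀ k : ℕ, k ≤ r → ∃ (s : ℕ) (E : RData F H s), E.S = D.S ∧ E.T = D.T ∧
      Set.range D₀.v ⊆ Set.range E.v ∧ (∀ i : Fin r, i.1 < k → D.v i ∈ Set.range E.v) ∧ Rub E Θ := by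
    intro k
    induction k with
    | zero =>
      intro _
      exact ⟨r₀, D₀, hS, hT, subset_rfl, fun i hi => absurd hi (Nat.not_lt_zero _), hR⟩
    | succ k ih =>
      intro hk
      obtain ⟨s, E, h1, h2, h3, h4, h5⟩ := ih (by omega)
      obtain ⟨i₀, hi₀⟩ : ∃ i₀ : Fin r, i₀.1 = k := ⟨⟨k, hk⟩, rfl⟩
      have hlt : ∀ i : Fin r, i.1 < k + 1 → i.1 < k ∨ i = i₀ := fun i hi => by
        rcases Nat.lt_succ_iff_lt_or_eq.mp hi with h | h
        · exact Or.inl h
        · exact Or.inr (Fin.ext (by rw [h, hi₀]))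
      by_cases hv : D.v i₀ ∈ Set.range E.v
      · refine ⟨s, E, h1, h2, h3, fun i hi => ?_, h5⟩
        rcases hlt i hi with h | rfl
        · exact h4 i h
        · exact hv
      · -- add the prime `D.v i₀`
        have hvS : D.v i₀ ∉ E.S := by rw [h1]; exact D.hvS i₀
        have hvT : D.v i₀ ∉ E.T := by rw [h2]; exact D.hvT i₀
        obtain ⟨E', hE'⟩ : ∃ E' : RData F H (s + 1),
            E' = addP E (D.v i₀) (D.w i₀) hv hvS hvT (D.hvs i₀) (D.hw i₀) := ⟨_, rfl⟩
        have hcc : E'.c = D.c := RData_c_eq E' D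
        have hES : E'.S = E.S := by rw [hE']; rfl
        have hET : E'.T = E.T := by rw [hE']; rfl
        have hv0 : E'.v 0 = D.v i₀ := by rw [hE']; rfl
        have hw0 : E'.w 0 = D.w i₀ := by rw [hE']; rfl
        have hvs : ∀ j : Fin s, E'.v j.succ = E.v j ∧ E'.w j.succ = E.w j := fun j => by
          rw [hE']; exact ⟨rfl, rfl⟩
        have hr1 : Set.range E.v ⊆ Set.range E'.v := by
          rintro _ ⟨j, rfl⟩
          exact ⟨j.succ, (hvs j).1⟩
        have hr2 : D.v i₀ ∈ Set.range E'.v := ⟨0, hv0⟩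
        have hv' : D.v i₀ ∉ Set.range D₀.v := fun h => hv (h3 h)
        obtain ⟨d, x, hd, hx1, hx2, hx3⟩ := hG i₀ hv'
        have hOu := fun (σ : H ≃ₐ[F] H) (P : HOS H) =>
          (ORD H).2.2.2.2.2.2.2.2 F (σ : H ≃+* H) P (fun y => σ.commutes y)
        obtain ⟨f1, f2, f3, f4, f5, f6, f7, f8⟩ := hFCT F H (s + 1) E'
        refine ⟨s + 1, E', by rw [hES, h1], by rw [hET, h2], h3.trans hr1, fun i hi => ?_, ?_⟩
        · rcases hlt i hi with h | rfl
          · exact hr1 (h4 i h)
          · exact hr2
        · refine hADD F H s E E' hES hET hvs ⟨d, x, hd, ?_, ?_, ?_⟩ Θ ?_ h5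
          · rw [f5]
            refine ⟨fun P hP => hx2 P ?_, fun P hP => ?_⟩
            · rw [← h2, ← hET]; exact hP
            · rw [hx3 P (fun h => hP (hr1 (h3 h)))]
              rw [if_neg, if_neg]
              · rintro rfl
                apply hP
                rw [hOu D.c (D.w i₀), D.hw i₀]
                exact hr2
              · rintro rfl
                apply hP
                rw [D.hw i₀]
                exact hr2
          · rw [hcc]; exact hx1
          · rw [hw0, hcc]
            have g1 : ∀ σ : H ≃ₐ[F] H, act (σ : H ≃+* H) (D.w i₀) = D.w i₀ → σ = 1 := fun σ h => by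
              rw [← hw0] at h
              exact (f3 0 0 σ h).2
            have g0 : act ((1 : H ≃ₐ[F] H) : H ≃+* H) (D.w i₀) = D.w i₀ :=
              (ORD H).2.2.2.2.2.2.1 (D.w i₀)
            have g2 : ∀ σ : H ≃ₐ[F] H, act (σ : H ≃+* H) (D.w i₀) = act (D.c : H ≃+* H) (D.w i₀) →
                σ = D.c := fun σ h => by
              have h7 := congrArg (act (D.c : H ≃+* H)) h
              rw [← (ORD H).2.2.2.2.2.2.2.1, ← (ORD H).2.2.2.2.2.2.2.1] at h7
              have h8 : ((D.c : H ≃+* H).trans (D.c : H ≃+* H)) = ((1 : H ≃ₐ[F] H) : H ≃+* H) := by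
                refine RingEquiv.ext fun y => ?_
                have h9 := congrArg (fun ρ : H ≃ₐ[F] H => ρ y) (hcc ▸ f1)
                exact h9
              rw [h8, g0] at h7
              have h10 : D.c * σ = 1 := g1 (D.c * σ) h7
              have h11 : D.c * D.c = 1 := hcc ▸ f1
              exact mul_left_cancel (h10.trans h11.symm)
            have g3 : D.c ≠ 1 := hcc ▸ f2
            have hco : ∀ τ : H ≃ₐ[F] H, (d • (1 - MonoidAlgebra.single D.c 1) :
                MonoidAlgebra ℤ (H ≃ₐ[F] H)).coeff τ =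
                (d : ℤ) * ((if τ = 1 then 1 else 0) - (if τ = D.c then 1 else 0)) := fun τ => by
              rw [MonoidAlgebra.coeff_smul_apply, nsmul_eq_mul, MonoidAlgebra.one_def,
                MonoidAlgebra.coeff_sub, Finsupp.sub_apply, MonoidAlgebra.coeff_single_apply,
                MonoidAlgebra.coeff_single_apply]
              simp only [eq_comm]
            refine MonoidAlgebra.ext (Finsupp.ext fun τ => ?_)
            rw [vr_orz F H (D.w i₀) |>.2.2.2.2]
            rw [hx3 (act (τ : H ≃+* H) (D.w i₀)) (by rw [hOu τ (D.w i₀), D.hw i₀]; exact hv')]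
            by_cases t1 : τ = 1
            · subst t1
              rw [if_pos g0, hco, if_pos rfl, if_neg (fun h => g3 h.symm)]
              simp
            · by_cases t2 : τ = D.c
              · subst t2
                rw [if_neg (fun h => t1 (g1 _ h)), if_pos rfl, hco, if_neg t1, if_pos rfl]
                simp
              · rw [if_neg (fun h => t1 (g1 _ h)), if_neg (fun h => t2 (g2 _ h)), hco, if_neg t1,
                  if_neg t2]
                simp
          · rw [RData_c_eq E D]; exact hΘ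
  obtain ⟨s, E, h1, h2, -, h4, h5⟩ := key r le_rfl
  refine ⟨s, E, h1, h2, ?_, h5⟩
  rintro _ ⟨i, rfl⟩
  exact h4 i i.2

end Pool.Agent.VR
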